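import Mathlib
import Pool.Agent.X330.LN.Main

set_option autoImplicit false

namespace Pool.Agent.Results.MP_269158_co.AntichainOrder

/-- `L(n,n)`: the partitions `f 0 ≥ f 1 ≥ ... ≥ f (n-1)` with `n` parts in `{0,...,n}`, ordered
componentwise, i.e. by containment of diagrams (the order induced from `Fin n → Fin (n + 1)`). -/
abbrev L (n : ℕ) : Type := {f : Fin n → Fin (n + 1) // Antitone f}

/-- The number of antichains of `L(n,n)`, the empty one included. -/
noncomputable def A (n : ℕ) : ℕ := Nat.card {X : Set (L n) // IsAntichain (· ≤ ·) X}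

/-- The area (rank) of a diagram. -/
def area {n : ℕ} (f : L n) : ℕ := ∑ i, ((f.1 i : Fin (n + 1)) : ℕ)

/-- The size of the middle rank level of `L(n,n)`. -/
noncomputable def M (n : ℕ) : ℕ := Nat.card {f : L n // area f = n ^ 2 / 2}

/-- The logarithm of the number of antichains of `L(n,n)` is of the order of
`binom(2n,n) / n^(3/2)`, and also of the order of the middle level `M(n)`. -/
theorem result : ∃ c C : ℝ, 0 < c ∧ 0 < C ∧ ∀ n : ℕ, 1 ≤ n →
    c * (((2 * n).choose n : ℝ) / (n : ℝ) ^ (3 / 2 : ℝ)) ≤ Real.logb 2 (A n) ∧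
    Real.logb 2 (A n) ≤ C * (((2 * n).choose n : ℝ) / (n : ℝ) ^ (3 / 2 : ℝ)) ∧
    (M n : ℝ) ≤ Real.logb 2 (A n) ∧ Real.logb 2 (A n) ≤ C * M n := by
  refine ⟨1 / 10, 640000, by norm_num, by norm_num, ?_⟩
  intro n hn
  obtain ⟨h1, h2, h3⟩ := Pool.Agent.X330.LN.main n hn
  have e1 : Pool.Agent.X330.LN.M n = M n := rfl
  have e2 : Nat.card {X : Set (Pool.Agent.X330.LN.L n) // IsAntichain (· ≤ ·) X} = A n := rfl
  rw [e1] at h1 h3
  rw [e2] at h1 h2
  have e3 : (n : ℝ) ^ (3 / 2 : ℝ) = (Real.sqrt n) ^ 3 := by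
    rw [Real.sqrt_eq_rpow, ← Real.rpow_natCast, ← Real.rpow_mul (by positivity)]
    norm_num
  rw [e3]
  have h4 : (0 : ℝ) ≤ ((2 * n).choose n : ℝ) / (Real.sqrt n) ^ 3 := by positivity
  refine ⟨by linarith, by linarith, h1, by linarith⟩

end Pool.Agent.Results.MP_269158_co.AntichainOrder
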